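import Pool.Agent.Helper20.FS.St

/-!
# Project SL, module SA

Adapted from `Pool/Agent/Helper51/R20/M_AS.lean`.
-/

set_option autoImplicit false

open Topology Filter

namespace Pool.Agent.Helper45.SL

open Pool.Agent.Helper20.FA
open Pool.Agent.Helper20.FR
open Pool.Agent.Helper20.FS

section

variable {A : Type} [NonUnitalRing A] [Module ℂ A]

private lemma hb (r : Seminorm ℂ A) (v : A) (M : ℝ) (hM : 0 ≤ M)
    (h : ∀ l : DA r, ‖l.at v‖ ≤ M * ‖l‖) : r v ≤ M := by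
  obtain ⟨g, hg1, hg⟩ := exists_dual_vector'' ℂ (SA.of r v)
  have h1 := h g
  have h2 : DA.at g v = ((r v : ℝ) : ℂ) := hg
  rw [h2, Complex.norm_real, Real.norm_eq_abs, abs_of_nonneg (apply_nonneg r v)] at h1
  have h3 : M * ‖g‖ ≤ M * 1 := mul_le_mul_of_nonneg_left hg1 hM
  linarith

end

/-- SA. -/
theorem hSA (hUL : StUL) (hDI : StDI) : StSA := by
  intro A _ _ r q hm hst x hx χ hχ F C hC hFb hF1 hFc hF0
  obtain ⟨G, hG⟩ := hUL (DA r) F (fun l => C * ‖l‖) hFb
  have hcl : ∀ (v : DA r) (K : Set ℂ), IsClosed K → (∀ n, F n v ∈ K) → G v ∈ K := by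
    intro v K hK h
    by_contra hc
    have h1 := hG v Kᶜ (hK.isOpen_compl.mem_nhds hc)
    obtain ⟨n, hn⟩ := h1.exists
    exact hn (h n)
  have hGb : ∀ l : DA r, ‖G l‖ ≤ C * ‖l‖ := by
    intro l
    exact hcl l {z | ‖z‖ ≤ C * ‖l‖} (isClosed_le continuous_norm continuous_const)
      (fun n => hFb n l)
  have hGc : ∀ (c : A) (l : DA r), ‖G (SA.B r hm (SA.of r c) l)‖ ≤ C * q c * ‖l‖ := by
    intro c l
    exact hcl (SA.B r hm (SA.of r c) l) {z | ‖z‖ ≤ C * q c * ‖l‖}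
      (isClosed_le continuous_norm continuous_const) (fun n => hFc n c l)
  have hG1 : ∀ l : DA r, (∀ a, l.at a = χ a) → G l = 1 := by
    intro l hl
    exact hcl l {1} isClosed_singleton (fun n => hF1 n l hl)
  have hG0 : ∀ l : ℕ → DA r, (∀ j, ‖l j‖ ≤ 1) → (∀ a, Tendsto (fun j => (l j).at a) atTop (𝓝 0)) →
      Tendsto (fun j => G (l j)) atTop (𝓝 0) := by
    intro l hl1 hl0
    by_contra hcon
    rw [Metric.tendsto_atTop] at hcon
    push Not at hcon
    obtain ⟨ε, hε, hj⟩ := hcon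
    choose js hjs1 hjs2 using hj
    have hfr : ∀ i, ∃ᶠ n in atTop, ε / 2 < ‖F n (l (js i))‖ := by
      intro i
      have hop : IsOpen {z : ℂ | ε / 2 < ‖z‖} := isOpen_lt continuous_const continuous_norm
      have hme : G (l (js i)) ∈ {z : ℂ | ε / 2 < ‖z‖} := by
        have h1 := hjs2 i
        rw [dist_zero_right] at h1
        show ε / 2 < ‖G (l (js i))‖
        linarith
      exact hG (l (js i)) _ (hop.mem_nhds hme)
    obtain ⟨φ, hφ, hφ2⟩ := extraction_forall_of_frequently hfr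
    set l' : ℕ → DA r := Function.extend φ (fun i => l (js i)) (fun _ => 0) with hl'
    have e1 : ∀ i, l' (φ i) = l (js i) := fun i => hφ.injective.extend_apply _ _ i
    have e2 : ∀ n, (¬ ∃ i, φ i = n) → l' n = 0 := fun n hn => Function.extend_apply' _ _ n hn
    have hb1 : ∀ n, ‖l' n‖ ≤ 1 := by
      intro n
      by_cases h : ∃ i, φ i = n
      · obtain ⟨i, rfl⟩ := h
        rw [e1]
        exact hl1 _
      · rw [e2 n h, norm_zero]
        exact zero_le_one
    have hb2 : ∀ a, Tendsto (fun n => (l' n).at a) atTop (𝓝 0) := by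
      intro a
      rw [Metric.tendsto_atTop]
      intro δ hδ
      obtain ⟨N0, hN0⟩ := Metric.tendsto_atTop.1 (hl0 a) δ hδ
      refine ⟨φ N0, fun n hn => ?_⟩
      by_cases h : ∃ i, φ i = n
      · obtain ⟨i, rfl⟩ := h
        rw [e1]
        have h1 : N0 ≤ i := hφ.le_iff_le.1 hn
        exact hN0 _ (h1.trans (hjs1 i))
      · rw [e2 n h]
        have : (0 : DA r).at a = 0 := rfl
        rw [this, dist_self]
        exact hδ
    have h3 := (hF0 l' hb1 hb2).comp hφ.tendsto_atTop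
    obtain ⟨N, hN⟩ := Metric.tendsto_atTop.1 h3 (ε / 2) (by linarith)
    have h4 := hN N le_rfl
    simp only [Function.comp] at h4
    rw [e1, dist_zero_right] at h4
    exact absurd (hφ2 N) (not_lt.2 h4.le)
  have hden : ∀ z : SA r, ∀ ε > 0, ∃ k, ‖z - (SA.of r (x k))‖ < ε := fun z ε hε => hx z ε hε
  have hz := hDI (SA r) (fun k => SA.of r (x k)) hden G C hGb
    (fun l h1 h2 => hG0 l h1 (fun a => h2 (SA.of r a)))
  have hz2 : ∀ k : ℕ, ∃ z : A, ∀ l : DA r, ‖G l - l.at z‖ ≤ (1 / 2 : ℝ) ^ k * ‖l‖ := by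
    intro k
    obtain ⟨z, hz⟩ := hz ((1 / 2 : ℝ) ^ k) (by positivity)
    exact ⟨z, hz⟩
  choose α hα using hz2
  have hd : ∀ k m, r (α k - α m) ≤ (1 / 2 : ℝ) ^ k + (1 / 2 : ℝ) ^ m := by
    intro k m
    apply hb r _ _ (by positivity)
    intro l
    have e : l.at (α k - α m) = (G l - l.at (α m)) - (G l - l.at (α k)) := by
      have : l.at (α k - α m) = l.at (α k) - l.at (α m) := map_sub l (SA.of r (α k)) (SA.of r (α m))
      rw [this]
      ring
    rw [e]
    calc ‖(G l - l.at (α m)) - (G l - l.at (α k))‖ ≤ ‖G l - l.at (α m)‖ + ‖G l - l.at (α k)‖ :=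
          norm_sub_le _ _
      _ ≤ (1 / 2 : ℝ) ^ m * ‖l‖ + (1 / 2 : ℝ) ^ k * ‖l‖ := add_le_add (hα m l) (hα k l)
      _ = _ := by ring
  have hca : ∀ ε > 0, ∃ N, ∀ k ≥ N, r (α k - α N) ≤ ε := by
    intro ε hε
    obtain ⟨N, hN⟩ := exists_pow_lt_of_lt_one (show (0 : ℝ) < ε / 2 by linarith)
      (show (1 / 2 : ℝ) < 1 by norm_num)
    refine ⟨N, fun k hk => (hd k N).trans ?_⟩
    have h1 : (1 / 2 : ℝ) ^ k ≤ (1 / 2 : ℝ) ^ N :=
      pow_le_pow_of_le_one (by norm_num) (by norm_num) hk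
    linarith
  obtain ⟨a, ha⟩ := hst α hca
  have hGa : ∀ l : DA r, G l = l.at a := by
    intro l
    rw [← sub_eq_zero, ← norm_le_zero_iff]
    refine le_of_forall_pos_le_add fun ε hε => ?_
    rw [zero_add]
    have hl : 0 < ‖l‖ + 1 := by
      have := norm_nonneg l
      linarith
    have hε2 : 0 < ε / (2 * (‖l‖ + 1)) := by positivity
    obtain ⟨N1, hN1⟩ := ha _ hε2
    obtain ⟨N2, hN2⟩ := exists_pow_lt_of_lt_one hε2 (show (1 / 2 : ℝ) < 1 by norm_num)
    have h1 := hN1 (max N1 N2) (le_max_left _ _)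
    have h2 : (1 / 2 : ℝ) ^ (max N1 N2) ≤ (1 / 2 : ℝ) ^ N2 :=
      pow_le_pow_of_le_one (by norm_num) (by norm_num) (le_max_right _ _)
    have h3 := hα (max N1 N2) l
    have h4 := l.bd (α (max N1 N2) - a)
    have e : G l - l.at a = (G l - l.at (α (max N1 N2))) + l.at (α (max N1 N2) - a) := by
      have : l.at (α (max N1 N2) - a) = l.at (α (max N1 N2)) - l.at a :=
        map_sub l (SA.of r (α (max N1 N2))) (SA.of r a)
      rw [this]
      ring
    rw [e]
    have h5 : (1 / 2 : ℝ) ^ (max N1 N2) * ‖l‖ ≤ ε / (2 * (‖l‖ + 1)) * ‖l‖ :=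
      mul_le_mul_of_nonneg_right (h2.trans hN2.le) (norm_nonneg l)
    have h6 : ‖l‖ * r (α (max N1 N2) - a) ≤ ‖l‖ * (ε / (2 * (‖l‖ + 1))) :=
      mul_le_mul_of_nonneg_left h1 (norm_nonneg l)
    have h7 : ε / (2 * (‖l‖ + 1)) * ‖l‖ + ‖l‖ * (ε / (2 * (‖l‖ + 1))) ≤ ε := by
      have e2 : ε / (2 * (‖l‖ + 1)) * ‖l‖ + ‖l‖ * (ε / (2 * (‖l‖ + 1))) = ε * (‖l‖ / (‖l‖ + 1)) := by
        field_simp
        ring
      rw [e2]
      have h8 : ‖l‖ / (‖l‖ + 1) ≤ 1 := by
        rw [div_le_one hl]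
        linarith
      have := mul_le_mul_of_nonneg_left h8 hε.le
      linarith
    calc ‖(G l - l.at (α (max N1 N2))) + l.at (α (max N1 N2) - a)‖
        ≤ ‖G l - l.at (α (max N1 N2))‖ + ‖l.at (α (max N1 N2) - a)‖ := norm_add_le _ _
      _ ≤ ε := by linarith
  refine ⟨a, ?_, ?_⟩
  · let χ' : SA r →ₗ[ℂ] ℂ :=
      { toFun := fun b => χ b
        map_add' := fun b c => map_add χ b c
        map_smul' := fun c b => map_smul χ c b }
    let l : DA r := χ'.mkContinuous 1 (fun b => by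
      rw [one_mul]
      exact hχ b)
    have hl : ∀ b, l.at b = χ b := fun b => rfl
    have h1 := hG1 l hl
    rw [hGa l, hl a] at h1
    exact h1
  · intro b
    have hq := apply_nonneg q b
    apply hb r _ _ (by positivity)
    intro l
    have h1 := hGc b l
    rw [hGa, SA.B_at] at h1
    exact h1

end Pool.Agent.Helper45.SL
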