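import Pool.Agent.Helper20.FS.St3

/-!
# Project SM, module MB (Mittag-Leffler in the completions)

The frame and the lemmas on countable families of seminorms are those of
`Pool/Agent/Helper67/SL/M_ML.lean` (helper67).
-/

open Topology Filter

namespace Pool.Agent.Helper45.SL

open Pool.Agent.Helper20.FA Pool.Agent.Helper20.FR Pool.Agent.Helper20.FS

attribute [local instance] IsFrechet.tag IsFrechet.csm IsFrechet.lcs

section alg

variable {A : Type} [CommRing A] [Algebra ℂ A]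

private lemma qb_cau {q r : Seminorm ℂ A} {C : ℝ} {x : ℕ → A} (h : QB q r C x) (k i : ℕ) :
    r (x (k + i) - x k) ≤ 2 * (1 / 2) ^ k := by
  have h1 : r (x (k + i) - x k) ≤ (1 / 2) ^ k * (2 - 2 * (1 / 2) ^ i) := by
    induction i with
    | zero => simp
    | succ i ih =>
      have e1 : x (k + (i + 1)) - x k = (x (k + i + 1) - x (k + i)) + (x (k + i) - x k) := by
        rw [← add_assoc]
        abel
      rw [e1]
      have h2 := map_add_le_add r (x (k + i + 1) - x (k + i)) (x (k + i) - x k)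
      have h3 := h.1 (k + i)
      rw [pow_add] at h3
      rw [pow_succ (1 / 2 : ℝ) i]
      nlinarith
  have h2 : (0 : ℝ) < (1 / 2) ^ k * (1 / 2) ^ i := by positivity
  nlinarith

private lemma qb_bd {q r : Seminorm ℂ A} {C : ℝ} {x : ℕ → A} (h : QB q r C x) (k : ℕ) :
    r (x k) ≤ r (x 0) + 2 := by
  have h1 := qb_cau h 0 k
  rw [zero_add, pow_zero, mul_one] at h1
  have e1 : x k = (x k - x 0) + x 0 := by abel
  rw [e1]
  have h2 := map_add_le_add r (x k - x 0) (x 0)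
  linarith

private lemma exN (K : ℝ) : ∃ N : ℕ, K * (1 / 2) ^ N ≤ 1 := by
  obtain ⟨N, hN⟩ := exists_pow_lt_of_lt_one (show (0 : ℝ) < 1 / (|K| + 1) by positivity)
    (by norm_num : (1 / 2 : ℝ) < 1)
  refine ⟨N, ?_⟩
  rw [lt_div_iff₀ (by positivity)] at hN
  have h1 := le_abs_self K
  have h2 : (0 : ℝ) < (1 / 2) ^ N := by positivity
  nlinarith

private lemma dbl (p q r : Seminorm ℂ A) (hp : ∀ a b, p (a * b) ≤ p a * p b)
    (hr : ∀ a b, r (a * b) ≤ r a * r b) (x : ℕ → A) (C η : ℝ) (hC : 0 ≤ C) (h : QB q r C x)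
    (hη : ∀ k, p (1 - x k) ≤ η) :
    ∃ (y : ℕ → A) (C' : ℝ), 0 ≤ C' ∧ QB q r C' y ∧ ∀ k, p (1 - y k) ≤ η * η := by
  have h1 := apply_nonneg r (1 : A)
  have h0 := apply_nonneg r (x 0)
  obtain ⟨K, hK⟩ : ∃ K : ℝ, K = r 1 + r 1 + (r (x 0) + 2) + (r (x 0) + 2) := ⟨_, rfl⟩
  have hK0 : 0 ≤ K := by linarith
  obtain ⟨N, hN⟩ := exN K
  refine ⟨fun k => (1 + 1 - x (k + N)) * x (k + N), K * C, mul_nonneg hK0 hC, ⟨fun k => ?_,
    fun k b => ?_⟩, fun k => ?_⟩
  · have e1 : (1 + 1 - x (k + 1 + N)) * x (k + 1 + N) - (1 + 1 - x (k + N)) * x (k + N) =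
        (1 + 1 - x (k + 1 + N) - x (k + N)) * (x (k + 1 + N) - x (k + N)) := by ring
    show r ((1 + 1 - x (k + 1 + N)) * x (k + 1 + N) - (1 + 1 - x (k + N)) * x (k + N)) ≤ _
    rw [e1]
    refine (hr _ _).trans ?_
    have h2 : r (1 + 1 - x (k + 1 + N) - x (k + N)) ≤ K := by
      have a1 := map_sub_le_add r (1 + 1 - x (k + 1 + N)) (x (k + N))
      have a2 := map_sub_le_add r (1 + 1) (x (k + 1 + N))
      have a3 := map_add_le_add r (1 : A) 1
      have a4 := qb_bd h (k + 1 + N)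
      have a5 := qb_bd h (k + N)
      linarith
    have h3 : r (x (k + 1 + N) - x (k + N)) ≤ (1 / 2) ^ (k + N) := by
      have := h.1 (k + N)
      rwa [show k + N + 1 = k + 1 + N by omega] at this
    have h4 := mul_le_mul h2 h3 (apply_nonneg r _) hK0
    refine h4.trans ?_
    rw [pow_add]
    have h5 : (0 : ℝ) < (1 / 2) ^ k := by positivity
    nlinarith
  · show r ((1 + 1 - x (k + N)) * x (k + N) * b) ≤ _
    rw [mul_assoc]
    refine (hr _ _).trans ?_
    have h2 : r (1 + 1 - x (k + N)) ≤ K := by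
      have a2 := map_sub_le_add r (1 + 1) (x (k + N))
      have a3 := map_add_le_add r (1 : A) 1
      have a5 := qb_bd h (k + N)
      linarith
    have h3 := h.2 (k + N) b
    have h4 := mul_le_mul h2 h3 (apply_nonneg r _) hK0
    refine h4.trans ?_
    rw [pow_add]
    have h5 : (0 : ℝ) < (1 / 2) ^ k := by positivity
    have h6 := apply_nonneg r b
    have h7 : (1 / 2 : ℝ) ^ k * (K * (1 / 2) ^ N) ≤ (1 / 2) ^ k * 1 :=
      mul_le_mul_of_nonneg_left hN h5.le
    have h8 := mul_le_mul_of_nonneg_right h7 h6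
    linarith
  · show p (1 - (1 + 1 - x (k + N)) * x (k + N)) ≤ _
    have e1 : 1 - (1 + 1 - x (k + N)) * x (k + N) = (1 - x (k + N)) * (1 - x (k + N)) := by ring
    rw [e1]
    refine (hp _ _).trans ?_
    have h2 := hη (k + N)
    have h3 := apply_nonneg p (1 - x (k + N))
    exact mul_le_mul h2 h2 h3 (h3.trans h2)

private lemma improve (p q r : Seminorm ℂ A) (hp : ∀ a b, p (a * b) ≤ p a * p b)
    (hr : ∀ a b, r (a * b) ≤ r a * r b)
    (h : ∃ (x : ℕ → A) (C : ℝ), QB q r C x ∧ ∀ k, p (1 - x k) < 1 / 2) (ε : ℝ) (hε : 0 < ε) :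
    ∃ (y : ℕ → A) (C : ℝ), 0 ≤ C ∧ QB q r C y ∧ ∀ k, p (1 - y k) ≤ ε := by
  have hall : ∀ n : ℕ, ∃ (y : ℕ → A) (C : ℝ), 0 ≤ C ∧ QB q r C y ∧
      ∀ k, p (1 - y k) ≤ (1 / 2) ^ (n + 1) := by
    intro n
    induction n with
    | zero =>
      obtain ⟨x, C, hx, hk⟩ := h
      refine ⟨x, max C 0, le_max_right _ _, ⟨hx.1, fun k b => (hx.2 k b).trans ?_⟩, fun k => ?_⟩
      · have := mul_le_mul_of_nonneg_right (le_max_left C 0) (apply_nonneg q b)
        linarith
      · have := (hk k).le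
        simpa using this
    | succ n ih =>
      obtain ⟨x, C, hC, hx, hk⟩ := ih
      obtain ⟨y, C', hC', hy, hyk⟩ := dbl p q r hp hr x C _ hC hx hk
      refine ⟨y, C', hC', hy, fun k => (hyk k).trans ?_⟩
      have h1 : (1 / 2 : ℝ) ^ (n + 1) ≤ 1 / 2 := by
        rw [pow_succ]
        have : (1 / 2 : ℝ) ^ n ≤ 1 := pow_le_one₀ (by norm_num) (by norm_num)
        linarith
      have h2 : (0 : ℝ) < (1 / 2) ^ (n + 1) := by positivity
      rw [pow_succ (1 / 2 : ℝ) (n + 1)]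
      nlinarith
  obtain ⟨n, hn⟩ := exists_pow_lt_of_lt_one hε (by norm_num : (1 / 2 : ℝ) < 1)
  obtain ⟨y, C, hC, hy, hk⟩ := hall n
  refine ⟨y, C, hC, hy, fun k => (hk k).trans ?_⟩
  have h2 : (1 / 2 : ℝ) ^ (n + 1) ≤ (1 / 2) ^ n :=
    pow_le_pow_of_le_one (by norm_num) (by norm_num) (Nat.le_succ n)
  linarith

private lemma stepL (q0 Q P R R' : Seminorm ℂ A) (hR' : ∀ a b, R' (a * b) ≤ R' a * R' b)
    (hP : ∀ a b, P (a * b) ≤ P a * P b) (hQR : ∀ x, Q x ≤ R x) (hRR : ∀ x, R x ≤ R' x)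
    (z y : ℕ → A) (C D ε : ℝ) (hC : 0 ≤ C) (hz : QB q0 R D z) (hy : QB Q R' C y)
    (hyε : ∀ k, P (1 - y k) ≤ ε) :
    ∃ (w : ℕ → A) (σ : ℕ → ℕ), QB q0 R' (C * D) w ∧ (∀ l, l ≤ σ l) ∧
      ∀ l b, P ((w l - z (σ l)) * b) ≤ ε * P (z (σ l) * b) := by
  obtain ⟨N, hN⟩ := exN (8 * C)
  have hev : ∀ l : ℕ, ∀ᶠ m : ℕ in atTop,
      (1 / 2 : ℝ) ^ m * (8 * (1 + R' (z (l + N)))) ≤ (1 / 2) ^ l := by
    intro l
    have h1 : Tendsto (fun m : ℕ => (1 / 2 : ℝ) ^ m * (8 * (1 + R' (z (l + N))))) atTop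
        (𝓝 (0 * (8 * (1 + R' (z (l + N)))))) :=
      (tendsto_pow_atTop_nhds_zero_of_lt_one (by norm_num) (by norm_num)).mul_const _
    rw [zero_mul] at h1
    have h2 : (0 : ℝ) < (1 / 2) ^ l := by positivity
    exact (h1.eventually (gt_mem_nhds h2)).mono fun m hm => hm.le
  obtain ⟨φ, hφ, hφp⟩ := extraction_forall_of_eventually hev
  refine ⟨fun l => y (φ l) * z (l + N), fun l => l + N, ⟨fun l => ?_, fun l b => ?_⟩,
    fun l => Nat.le_add_right l N, fun l b => ?_⟩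
  · show R' (y (φ (l + 1)) * z (l + 1 + N) - y (φ l) * z (l + N)) ≤ _
    have e1 : y (φ (l + 1)) * z (l + 1 + N) - y (φ l) * z (l + N) =
        y (φ (l + 1)) * (z (l + 1 + N) - z (l + N)) + (y (φ (l + 1)) - y (φ l)) * z (l + N) := by
      ring
    rw [e1]
    have a1 := map_add_le_add R' (y (φ (l + 1)) * (z (l + 1 + N) - z (l + N)))
      ((y (φ (l + 1)) - y (φ l)) * z (l + N))
    have a2 := hy.2 (φ (l + 1)) (z (l + 1 + N) - z (l + N))
    have a3 : Q (z (l + 1 + N) - z (l + N)) ≤ (1 / 2) ^ (l + N) := by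
      have h1 := hz.1 (l + N)
      rw [show l + N + 1 = l + 1 + N by omega] at h1
      exact (hQR _).trans h1
    have a4 := map_sub_le_add R' (z (l + 1 + N)) (z (l + N))
    have a5 := hR' (y (φ (l + 1)) - y (φ l)) (z (l + N))
    have a6 : R' (y (φ (l + 1)) - y (φ l)) ≤ 2 * (1 / 2) ^ (φ l) := by
      have h1 : φ l ≤ φ (l + 1) := (hφ (Nat.lt_succ_self l)).le
      obtain ⟨i, hi⟩ := Nat.exists_eq_add_of_le h1
      rw [hi]
      exact qb_cau hy _ _
    have b1 := hφp l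
    have b2 := hφp (l + 1)
    have b3 : (1 / 2 : ℝ) ^ (φ (l + 1)) ≤ (1 / 2) ^ (φ l) :=
      pow_le_pow_of_le_one (by norm_num) (by norm_num) (hφ (Nat.lt_succ_self l)).le
    have c1 := apply_nonneg R' (z (l + N))
    have c2 := apply_nonneg R' (z (l + 1 + N))
    have c3 : (0 : ℝ) < (1 / 2) ^ l := by positivity
    have c4 : (0 : ℝ) < (1 / 2) ^ (φ l) := by positivity
    have c5 : (0 : ℝ) < (1 / 2) ^ (φ (l + 1)) := by positivity
    have d1 : C * Q (z (l + 1 + N) - z (l + N)) ≤ (1 / 2) ^ l / 8 := by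
      have h1 := mul_le_mul_of_nonneg_left a3 hC
      rw [pow_add] at h1
      have h2 := mul_le_mul_of_nonneg_left hN c3.le
      linarith
    have d2 : (1 / 2 : ℝ) ^ (φ l) * R' (z (l + N)) ≤ (1 / 2) ^ l / 8 := by nlinarith
    have d3 : (1 / 2 : ℝ) ^ (φ (l + 1)) * R' (z (l + 1 + N)) ≤ (1 / 2) ^ l / 16 := by
      rw [pow_succ] at b2
      nlinarith
    have d4 : (1 / 2 : ℝ) ^ (φ (l + 1)) * R' (z (l + N)) ≤ (1 / 2) ^ l / 8 :=
      (mul_le_mul_of_nonneg_right b3 c1).trans d2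
    have d5 : (1 / 2 : ℝ) ^ (φ (l + 1)) * R' (z (l + 1 + N) - z (l + N)) ≤
        (1 / 2 : ℝ) ^ (φ (l + 1)) * (R' (z (l + 1 + N)) + R' (z (l + N))) :=
      mul_le_mul_of_nonneg_left a4 c5.le
    have d6 := mul_le_mul_of_nonneg_right a6 c1
    linarith
  · show R' (y (φ l) * z (l + N) * b) ≤ _
    rw [mul_assoc]
    have a1 := hy.2 (φ l) (z (l + N) * b)
    have a2 := hz.2 (l + N) b
    have a3 := hR' (z (l + N)) b
    have a4 := hQR (z (l + N) * b)
    have a5 := hRR b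
    have b1 := hφp l
    have c1 := apply_nonneg R' (z (l + N))
    have c2 := apply_nonneg R' b
    have c3 : (0 : ℝ) < (1 / 2) ^ l := by positivity
    have c4 : (0 : ℝ) < (1 / 2) ^ (φ l) := by positivity
    have c6 : (0 : ℝ) < (1 / 2) ^ (l + N) := by positivity
    have d2 : (1 / 2 : ℝ) ^ (φ l) * R' (z (l + N)) ≤ (1 / 2) ^ l / 8 := by nlinarith
    have d3 : (1 / 2 : ℝ) ^ (φ l) * R' (z (l + N) * b) ≤ (1 / 2) ^ l / 8 * R' b := by
      have h1 := mul_le_mul_of_nonneg_left a3 c4.le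
      have h2 := mul_le_mul_of_nonneg_right d2 c2
      linarith
    have d4 : C * Q (z (l + N) * b) ≤ C * (D * q0 b + (1 / 2) ^ (l + N) * R b) :=
      mul_le_mul_of_nonneg_left (a4.trans a2) hC
    have d5 : C * ((1 / 2) ^ (l + N) * R b) ≤ (1 / 2) ^ l / 8 * R' b := by
      have h1 : C * ((1 / 2) ^ (l + N) * R b) ≤ C * ((1 / 2) ^ (l + N) * R' b) :=
        mul_le_mul_of_nonneg_left (mul_le_mul_of_nonneg_left a5 c6.le) hC
      have h2 : C * (1 / 2) ^ (l + N) ≤ (1 / 2) ^ l / 8 := by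
        rw [pow_add]
        have h3 := mul_le_mul_of_nonneg_left hN c3.le
        linarith
      have h3 := mul_le_mul_of_nonneg_right h2 c2
      linarith
    have d6 : 0 ≤ (1 / 2 : ℝ) ^ l * R' b := mul_nonneg c3.le c2
    linarith
  · show P ((y (φ l) * z (l + N) - z (l + N)) * b) ≤ ε * P (z (l + N) * b)
    have e1 : (y (φ l) * z (l + N) - z (l + N)) * b = (y (φ l) - 1) * (z (l + N) * b) := by ring
    rw [e1]
    refine (hP _ _).trans ?_
    have e2 : P (y (φ l) - 1) = P (1 - y (φ l)) := map_sub_rev _ _ _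
    rw [e2]
    exact mul_le_mul_of_nonneg_right (hyε _) (apply_nonneg P _)

end alg

/-- From a bound on the unit balls to a bound of seminorms. -/
private lemma le_of_ball {E : Type} [AddCommGroup E] [Module ℂ E] (s v : Seminorm ℂ E)
    (h : ∀ x, v x < 1 → s x < 1) (x : E) : s x ≤ v x := by
  refine le_of_forall_pos_le_add fun ε hε => ?_
  have hv := apply_nonneg v x
  have ht : 0 < v x + ε := by linarith
  have h4 : v ((((v x + ε)⁻¹ : ℝ) : ℂ) • x) < 1 := by
    rw [map_smul_eq_mul, Complex.norm_real, Real.norm_of_nonneg (by positivity),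
      inv_mul_lt_iff₀ ht]
    linarith
  have h5 := h _ h4
  rw [map_smul_eq_mul, Complex.norm_real, Real.norm_of_nonneg (by positivity),
      inv_mul_lt_iff₀ ht, mul_one] at h5
  exact h5.le

/-- A countable family of seminorms. -/
private lemma exists_fam (A : Type) [AddCommGroup A] [Module ℂ A] [TopologicalSpace A]
    [IsFrechet A] : ∃ v : ℕ → Seminorm ℂ A, (∀ n, Continuous (v n)) ∧
      (∀ U ∈ 𝓝 (0 : A), ∃ n, ∀ x, v n x < 1 → x ∈ U) ∧
      ∀ s : Seminorm ℂ A, Continuous s → ∃ n, ∀ x, s x ≤ v n x := by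
  have : TopologicalSpace.MetrizableSpace A := IsFrechet.metr
  obtain ⟨V, hV⟩ := (𝓝 (0 : A)).exists_antitone_basis
  have h1 : ∀ n, ∃ v : Seminorm ℂ A, Continuous v ∧ ∀ x, v x < 1 → x ∈ V n := fun n =>
    exists_seminorm (hV.1.mem_of_mem trivial)
  choose v hv hvV using h1
  have h2 : ∀ U ∈ 𝓝 (0 : A), ∃ n, ∀ x, v n x < 1 → x ∈ U := by
    intro U hU
    obtain ⟨n, -, hn⟩ := hV.1.mem_iff.1 hU
    exact ⟨n, fun x hx => hn (hvV n x hx)⟩
  refine ⟨v, hv, h2, fun s hs => ?_⟩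
  have h3 : {x : A | s x < 1} ∈ 𝓝 (0 : A) := by
    refine (isOpen_lt hs continuous_const).mem_nhds ?_
    simp
  obtain ⟨n, hn⟩ := h2 _ h3
  exact ⟨n, le_of_ball s (v n) hn⟩

private lemma exists_lim (A : Type) [AddCommGroup A] [Module ℂ A] [TopologicalSpace A]
    [IsFrechet A] (Z : ℕ → A)
    (h : ∀ U ∈ 𝓝 (0 : A), ∃ N, ∀ n ≥ N, Z n - Z N ∈ U) : ∃ a, Tendsto Z atTop (𝓝 a) := by
  let _ : UniformSpace A := IsTopologicalAddGroup.rightUniformSpace A
  have : CompleteSpace A := IsFrechet.complete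
  have : IsUniformAddGroup A := isUniformAddGroup_of_addCommGroup
  refine cauchySeq_tendsto_of_complete ?_
  rw [cauchySeq_iff_tendsto, uniformity_eq_comap_nhds_zero, tendsto_comap_iff]
  intro U hU
  have h1 : Tendsto (fun p : A × A => p.1 - p.2) (𝓝 0 ×ˢ 𝓝 0) (𝓝 0) := by
    rw [← nhds_prod_eq]
    have : ContinuousAt (fun p : A × A => p.1 - p.2) (0, 0) := by fun_prop
    simpa [ContinuousAt] using this
  have h2 := h1 hU
  rw [Filter.mem_map, Filter.mem_prod_self_iff] at h2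
  obtain ⟨V, hV, hVU⟩ := h2
  obtain ⟨N, hN⟩ := h V hV
  rw [Filter.mem_map, ← prod_atTop_atTop_eq, Filter.mem_prod_self_iff]
  refine ⟨Set.Ici N, Ici_mem_atTop N, ?_⟩
  rintro ⟨m, n⟩ ⟨hm, hn⟩
  have h3 := hVU (Set.mk_mem_prod (hN n hn) (hN m hm))
  simpa using h3

theorem hMB : StMB := by
  intro A _ _ _ _ _ H1 H2 p hp
  obtain ⟨v, hvc, hvU, hvs⟩ := exists_fam A
  have H2' : ∀ p : Seminorm ℂ A, Good p → ∃ q : Seminorm ℂ A, Continuous q ∧
      ∀ r : Seminorm ℂ A, Good r → ∀ ε : ℝ, 0 < ε → ∃ (y : ℕ → A) (C : ℝ), 0 ≤ C ∧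
        QB q r C y ∧ ∀ k, p (1 - y k) ≤ ε := by
    intro p hp
    obtain ⟨q, hq, hqr⟩ := H2 p hp
    exact ⟨q, hq, fun r hr ε hε => improve p q r hp.2 hr.2 (hqr r hr) ε hε⟩
  choose! up hup using H1
  choose! Q hQ using H2'
  -- the seminorms
  let P : ℕ → Seminorm ℂ A := fun n => Nat.rec p (fun k s => up (s + v k)) n
  have hP0 : P 0 = p := rfl
  have hPs : ∀ k, P (k + 1) = up (P k + v k) := fun k => rfl
  have hPg : ∀ k, Good (P k) := by
    intro k
    induction k with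
    | zero => exact hp
    | succ k ih =>
      rw [hPs]
      exact (hup _ (ih.1.add (hvc k))).1
  have hPle : ∀ k x, P k x + v k x ≤ P (k + 1) x := by
    intro k x
    rw [hPs]
    exact (hup (P k + v k) ((hPg k).1.add (hvc k))).2 x
  have hPle1 : ∀ k x, P k x ≤ P (k + 1) x := fun k x => by
    have := hPle k x
    have h3 := apply_nonneg (v k) x
    linarith
  have hPle2 : ∀ k x, v k x ≤ P (k + 1) x := fun k x => by
    have := hPle k x
    have h3 := apply_nonneg (P k) x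
    linarith
  have hPmono : ∀ k l, k ≤ l → ∀ x, P k x ≤ P l x := by
    intro k l hkl x
    induction hkl with
    | refl => exact le_rfl
    | step _ ih => exact ih.trans (hPle1 _ x)
  have hQc : ∀ k, Continuous (Q (P k)) := fun k => (hQ _ (hPg k)).1
  let R : ℕ → Seminorm ℂ A := fun n => Nat.rec (up (Q (P 0) + P 0))
    (fun k s => up (Q (P (k + 1)) + P (k + 1) + s)) n
  have hR0 : R 0 = up (Q (P 0) + P 0) := rfl
  have hRs : ∀ k, R (k + 1) = up (Q (P (k + 1)) + P (k + 1) + R k) := fun k => rfl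
  have hRg : ∀ k, Good (R k) := by
    intro k
    induction k with
    | zero => exact (hup (Q (P 0) + P 0) ((hQc 0).add (hPg 0).1)).1
    | succ k ih =>
      rw [hRs]
      exact (hup (Q (P (k + 1)) + P (k + 1) + R k)
        (((hQc (k + 1)).add (hPg (k + 1)).1).add ih.1)).1
  have hRle : ∀ k x, Q (P k) x + P k x ≤ R k x := by
    intro k x
    cases k with
    | zero => exact (hup (Q (P 0) + P 0) ((hQc 0).add (hPg 0).1)).2 x
    | succ k =>
      have h1 : Q (P (k + 1)) x + P (k + 1) x + R k x ≤ R (k + 1) x := by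
        rw [hRs]
        exact (hup (Q (P (k + 1)) + P (k + 1) + R k)
          (((hQc (k + 1)).add (hPg (k + 1)).1).add (hRg k).1)).2 x
      have h2 := apply_nonneg (R k) x
      linarith
  have hRR : ∀ k x, R k x ≤ R (k + 1) x := by
    intro k x
    have h1 : Q (P (k + 1)) x + P (k + 1) x + R k x ≤ R (k + 1) x := by
      rw [hRs]
      exact (hup (Q (P (k + 1)) + P (k + 1) + R k)
        (((hQc (k + 1)).add (hPg (k + 1)).1).add (hRg k).1)).2 x
    have h2 := apply_nonneg (Q (P (k + 1))) x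
    have h3 := apply_nonneg (P (k + 1)) x
    linarith
  have hRQ : ∀ k x, Q (P k) x ≤ R k x := fun k x => by
    have := hRle k x
    have h3 := apply_nonneg (P k) x
    linarith
  have hRP : ∀ k x, P k x ≤ R k x := fun k x => by
    have := hRle k x
    have h3 := apply_nonneg (Q (P k)) x
    linarith
  -- the recursion
  have step : ∀ (n : ℕ) (s : (ℕ → A) × ℝ), (0 ≤ s.2 ∧ QB (Q p) (R (n + 1)) s.2 s.1) →
      ∃ t : (ℕ → A) × ℝ, (0 ≤ t.2 ∧ QB (Q p) (R (n + 2)) t.2 t.1) ∧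
        ∃ σ : ℕ → ℕ, (∀ l, l ≤ σ l) ∧
        (∀ l b, P (n + 1) ((t.1 l - s.1 (σ l)) * b) ≤
          (1 / 2) ^ (n + 4) * (Q p b + (1 / 2) ^ l * R (n + 1) b)) ∧
        ∀ l, P (n + 1) (t.1 l - s.1 (σ l)) ≤ (1 / 2) ^ (n + 4) := by
    rintro n ⟨z, D⟩ ⟨hD, hz⟩
    dsimp only at hD hz ⊢
    have hq1 := apply_nonneg (Q p) (1 : A)
    have hr1 := apply_nonneg (R (n + 1)) (1 : A)
    have hden : 0 < (1 + D) * (1 + Q p 1 + R (n + 1) 1) := by
      apply mul_pos <;> linarith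
    obtain ⟨ε, hε⟩ : ∃ ε : ℝ, ε = (1 / 2) ^ (n + 4) / ((1 + D) * (1 + Q p 1 + R (n + 1) 1)) :=
      ⟨_, rfl⟩
    have hε0 : 0 < ε := by rw [hε]; positivity
    have hεe : ε * ((1 + D) * (1 + Q p 1 + R (n + 1) 1)) = (1 / 2) ^ (n + 4) := by
      rw [hε]
      exact div_mul_cancel₀ _ hden.ne'
    obtain ⟨y, C, hC, hy, hyε⟩ := (hQ _ (hPg (n + 1))).2 (R (n + 2)) (hRg (n + 2)) ε hε0
    obtain ⟨w, σ, hw, hσ, hwz⟩ := stepL (Q p) (Q (P (n + 1))) (P (n + 1)) (R (n + 1)) (R (n + 2))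
      (hRg (n + 2)).2 (hPg (n + 1)).2 (hRQ (n + 1)) (hRR (n + 1)) z y C D ε hC hz hy hyε
    have hmain : ∀ l b, P (n + 1) ((w l - z (σ l)) * b) ≤
        ε * (D * Q p b + (1 / 2) ^ l * R (n + 1) b) := by
      intro l b
      refine (hwz l b).trans (mul_le_mul_of_nonneg_left ?_ hε0.le)
      refine (hRP (n + 1) _).trans ((hz.2 (σ l) b).trans ?_)
      have h1 : (1 / 2 : ℝ) ^ (σ l) ≤ (1 / 2) ^ l :=
        pow_le_pow_of_le_one (by norm_num) (by norm_num) (hσ l)
      have h2 := mul_le_mul_of_nonneg_right h1 (apply_nonneg (R (n + 1)) b)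
      linarith
    refine ⟨(w, C * D), ⟨mul_nonneg hC hD, hw⟩, σ, hσ, fun l b => ?_, fun l => ?_⟩
    · refine (hmain l b).trans ?_
      rw [← hεe, mul_assoc]
      refine mul_le_mul_of_nonneg_left ?_ hε0.le
      have c1 := apply_nonneg (Q p) b
      have c2 : 0 ≤ (1 / 2) ^ l * R (n + 1) b := mul_nonneg (by positivity) (apply_nonneg _ b)
      have c3 : D * Q p b + (1 / 2) ^ l * R (n + 1) b ≤
          (1 + D) * (Q p b + (1 / 2) ^ l * R (n + 1) b) := by nlinarith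
      refine c3.trans ?_
      rw [mul_assoc]
      refine mul_le_mul_of_nonneg_left ?_ (by linarith)
      nlinarith
    · have h1 := hmain l 1
      rw [mul_one] at h1
      refine h1.trans ?_
      rw [← hεe]
      refine mul_le_mul_of_nonneg_left ?_ hε0.le
      have c1 : (1 / 2 : ℝ) ^ l ≤ 1 := pow_le_one₀ (by norm_num) (by norm_num)
      have c2 := mul_le_mul_of_nonneg_right c1 hr1
      nlinarith
  obtain ⟨z0, D0, hD0, hz0b, hz0⟩ := (hQ _ hp).2 (R 1) (hRg 1) (1 / 8) (by norm_num)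
  choose! nx hnx using step
  let S : ℕ → (ℕ → A) × ℝ := fun n => Nat.rec (z0, D0) (fun k s => nx k s) n
  have hS0 : S 0 = (z0, D0) := rfl
  have hSs : ∀ n, S (n + 1) = nx n (S n) := fun n => rfl
  have hSP : ∀ n, 0 ≤ (S n).2 ∧ QB (Q p) (R (n + 1)) (S n).2 (S n).1 := by
    intro n
    induction n with
    | zero => exact ⟨hD0, hz0b⟩
    | succ n ih =>
      rw [hSs]
      exact (hnx n (S n) ih).1
  have hSd : ∀ n, ∃ σ : ℕ → ℕ, (∀ l, l ≤ σ l) ∧
        (∀ l b, P (n + 1) (((S (n + 1)).1 l - (S n).1 (σ l)) * b) ≤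
          (1 / 2) ^ (n + 4) * (Q p b + (1 / 2) ^ l * R (n + 1) b)) ∧
        ∀ l, P (n + 1) ((S (n + 1)).1 l - (S n).1 (σ l)) ≤ (1 / 2) ^ (n + 4) := by
    intro n
    rw [hSs]
    exact (hnx n (S n) (hSP n)).2
  -- the elements of A
  obtain ⟨α, hα⟩ : ∃ α : ℕ → A, ∀ n, α n = (S n).1 (n + 5) := ⟨fun n => (S n).1 (n + 5), fun _ => rfl⟩
  have hαS : ∀ n l, n + 5 ≤ l → R (n + 1) ((S n).1 l - α n) ≤ (1 / 2) ^ (n + 4) := by
    intro n l hl
    obtain ⟨i, rfl⟩ := Nat.exists_eq_add_of_le hl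
    rw [hα]
    refine (qb_cau (hSP n).2 (n + 5) i).trans ?_
    rw [show n + 5 = n + 4 + 1 by omega, pow_succ]
    linarith
  have hSe : ∀ n, P (n + 1) (α (n + 1) - α n) ≤ (1 / 2) ^ (n + 3) := by
    intro n
    obtain ⟨σ, hσ, -, h2⟩ := hSd n
    have e1 : α (n + 1) - α n = (α (n + 1) - (S n).1 (σ (n + 1 + 5))) +
        ((S n).1 (σ (n + 1 + 5)) - α n) := by abel
    rw [e1]
    have h3 := map_add_le_add (P (n + 1)) (α (n + 1) - (S n).1 (σ (n + 1 + 5)))
      ((S n).1 (σ (n + 1 + 5)) - α n)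
    have h4 := h2 (n + 1 + 5)
    rw [← hα (n + 1)] at h4
    have h5 := (hRP (n + 1) _).trans (hαS n (σ (n + 1 + 5)) (by have := hσ (n + 1 + 5); omega))
    have h6 : (1 / 2 : ℝ) ^ (n + 3) = (1 / 2) ^ (n + 4) + (1 / 2) ^ (n + 4) := by
      rw [show n + 4 = n + 3 + 1 by omega, pow_succ]
      ring
    linarith
  have hcau : ∀ m n, m ≤ n → ∀ i, P (m + 1) (α (n + i) - α n) ≤
      (1 / 2) ^ n * (1 - (1 / 2) ^ i) := by
    intro m n hmn i
    induction i with
    | zero => simp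
    | succ i ih =>
      have e1 : α (n + (i + 1)) - α n = (α (n + i + 1) - α (n + i)) + (α (n + i) - α n) := by
        rw [← add_assoc]
        abel
      rw [e1]
      have h1 := map_add_le_add (P (m + 1)) (α (n + i + 1) - α (n + i)) (α (n + i) - α n)
      have h2 := (hPmono (m + 1) (n + i + 1) (by omega) (α (n + i + 1) - α (n + i))).trans
        (hSe (n + i))
      have h3 : (1 / 2 : ℝ) ^ (n + i + 3) = (1 / 2) ^ n * (1 / 2) ^ i * (1 / 8) := by
        rw [pow_add, pow_add]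
        norm_num
      have h4 : (0 : ℝ) < (1 / 2) ^ n * (1 / 2) ^ i := by positivity
      rw [h3] at h2
      rw [pow_succ (1 / 2 : ℝ) i]
      linarith
  obtain ⟨a, ha⟩ := exists_lim A α (by
    intro U hU
    obtain ⟨m, hm⟩ := hvU U hU
    refine ⟨m + 1, fun n hn => hm _ ?_⟩
    obtain ⟨i, rfl⟩ := Nat.exists_eq_add_of_le hn
    have h1 := (hPle2 m _).trans (hcau m (m + 1) (by omega) i)
    have h2 : (1 / 2 : ℝ) ^ (m + 1) ≤ 1 / 2 := by
      rw [pow_succ]
      have : (1 / 2 : ℝ) ^ m ≤ 1 := pow_le_one₀ (by norm_num) (by norm_num)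
      linarith
    have h3 : (0 : ℝ) < (1 / 2) ^ i := by positivity
    have h4 : (0 : ℝ) < (1 / 2) ^ (m + 1) := by positivity
    refine lt_of_le_of_lt h1 ?_
    nlinarith)
  have hbd : ∀ j i b, ∀ η : ℝ, 0 < η → ∃ N, ∀ l ≥ N, P (j + 1) ((S (j + i)).1 l * b) ≤
      ((S j).2 + 1 - (1 / 2) ^ i) * Q p b + η := by
    intro j i b
    have hb := apply_nonneg (Q p) b
    have hsm : ∀ (K : ℝ), 0 ≤ K → ∀ η : ℝ, 0 < η → ∃ N, ∀ l ≥ N, (1 / 2 : ℝ) ^ l * K ≤ η := by
      intro K hK η hη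
      obtain ⟨N, hN⟩ := exists_pow_lt_of_lt_one (show (0 : ℝ) < η / (K + 1) by positivity)
        (by norm_num : (1 / 2 : ℝ) < 1)
      refine ⟨N, fun l hl => ?_⟩
      have h1 : (1 / 2 : ℝ) ^ l ≤ (1 / 2) ^ N :=
        pow_le_pow_of_le_one (by norm_num) (by norm_num) hl
      rw [lt_div_iff₀ (by positivity)] at hN
      have h2 := mul_le_mul_of_nonneg_right h1 hK
      have h3 : (0 : ℝ) < (1 / 2) ^ N := by positivity
      nlinarith
    induction i with
    | zero =>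
      intro η hη
      obtain ⟨N, hN⟩ := hsm (R (j + 1) b) (apply_nonneg _ _) η hη
      refine ⟨N, fun l hl => ?_⟩
      have h1 := (hRP (j + 1) _).trans ((hSP j).2.2 l b)
      have h2 := hN l hl
      rw [add_zero, pow_zero]
      linarith
    | succ i ih =>
      intro η hη
      obtain ⟨N1, hN1⟩ := ih (η / 2) (by linarith)
      obtain ⟨N2, hN2⟩ := hsm (R (j + i + 1) b) (apply_nonneg _ _) (η / 2) (by linarith)
      obtain ⟨σ, hσ, h1, -⟩ := hSd (j + i)
      refine ⟨max N1 N2, fun l hl => ?_⟩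
      have hl1 : N1 ≤ l := (le_max_left _ _).trans hl
      have hl2 : N2 ≤ l := (le_max_right _ _).trans hl
      have e1 : (S (j + (i + 1))).1 l * b =
          ((S (j + i + 1)).1 l - (S (j + i)).1 (σ l)) * b + (S (j + i)).1 (σ l) * b := by
        rw [← add_assoc]
        ring
      rw [e1]
      have h2 := map_add_le_add (P (j + 1)) (((S (j + i + 1)).1 l - (S (j + i)).1 (σ l)) * b)
        ((S (j + i)).1 (σ l) * b)
      have h3 := (hPmono (j + 1) (j + i + 1) (by omega)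
        (((S (j + i + 1)).1 l - (S (j + i)).1 (σ l)) * b)).trans (h1 l b)
      have h4 := hN1 (σ l) (hl1.trans (hσ l))
      have h5 := hN2 l hl2
      have h6 : (1 / 2 : ℝ) ^ (j + i + 4) ≤ (1 / 2) ^ i * (1 / 2) := by
        have h5 : (1 / 2 : ℝ) ^ (j + i + 4) = (1 / 2) ^ j * ((1 / 2) ^ i * (1 / 16)) := by
          rw [pow_add, pow_add]
          norm_num
          ring
        have h6 : (1 / 2 : ℝ) ^ j ≤ 1 := pow_le_one₀ (by norm_num) (by norm_num)
        have h7 : (0 : ℝ) < (1 / 2) ^ i := by positivity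
        rw [h5]
        nlinarith
      have h7 : (1 / 2 : ℝ) ^ (j + i + 4) ≤ 1 := pow_le_one₀ (by norm_num) (by norm_num)
      have h8 := mul_le_mul_of_nonneg_right h6 hb
      have h9 : (1 / 2 : ℝ) ^ (j + i + 4) * ((1 / 2) ^ l * R (j + i + 1) b) ≤
          1 * ((1 / 2) ^ l * R (j + i + 1) b) :=
        mul_le_mul_of_nonneg_right h7 (mul_nonneg (by positivity) (apply_nonneg _ _))
      rw [pow_succ (1 / 2 : ℝ) i]
      linarith
  have hbd2 : ∀ j i b, P (j + 1) (α (j + i) * b) ≤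
      ((S j).2 + 1) * Q p b + (1 / 2) ^ i * P (j + 1) b := by
    intro j i b
    have hb := apply_nonneg (Q p) b
    have hpb := apply_nonneg (P (j + 1)) b
    refine le_of_forall_pos_le_add fun η hη => ?_
    obtain ⟨N, hN⟩ := hbd j i b η hη
    have h1 := hN (max N (j + i + 5)) (le_max_left _ _)
    have h2 := hαS (j + i) (max N (j + i + 5)) (le_max_right _ _)
    have e1 : α (j + i) * b = (S (j + i)).1 (max N (j + i + 5)) * b -
        ((S (j + i)).1 (max N (j + i + 5)) - α (j + i)) * b := by ring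
    rw [e1]
    have h3 := map_sub_le_add (P (j + 1)) ((S (j + i)).1 (max N (j + i + 5)) * b)
      (((S (j + i)).1 (max N (j + i + 5)) - α (j + i)) * b)
    have h4 := (hPg (j + 1)).2 ((S (j + i)).1 (max N (j + i + 5)) - α (j + i)) b
    have h5 := (hPmono (j + 1) (j + i + 1) (by omega)
      ((S (j + i)).1 (max N (j + i + 5)) - α (j + i))).trans ((hRP (j + i + 1) _).trans h2)
    have h6 : (1 / 2 : ℝ) ^ (j + i + 4) ≤ (1 / 2) ^ i :=
      pow_le_pow_of_le_one (by norm_num) (by norm_num) (by omega)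
    have h7 := mul_le_mul_of_nonneg_right (h5.trans h6) hpb
    have h8 : 0 ≤ (1 / 2 : ℝ) ^ i * Q p b := mul_nonneg (by positivity) hb
    linarith
  have hlimb : ∀ j b, P (j + 1) (a * b) ≤ ((S j).2 + 1) * Q p b := by
    intro j b
    have h1 : Tendsto (fun i => P (j + 1) (α (j + i) * b)) atTop (𝓝 (P (j + 1) (a * b))) := by
      have h2 : Tendsto (fun n => P (j + 1) (α n * b)) atTop (𝓝 (P (j + 1) (a * b))) :=
        ((hPg (j + 1)).1.tendsto _).comp (ha.mul_const b)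
      have h3 : Tendsto (fun i : ℕ => j + i) atTop atTop := tendsto_atTop_mono
        (fun i => Nat.le_add_left i j) tendsto_id
      exact h2.comp h3
    have h2 : Tendsto (fun i : ℕ => ((S j).2 + 1) * Q p b + (1 / 2 : ℝ) ^ i * P (j + 1) b) atTop
        (𝓝 (((S j).2 + 1) * Q p b + 0 * P (j + 1) b)) :=
      tendsto_const_nhds.add
        ((tendsto_pow_atTop_nhds_zero_of_lt_one (by norm_num) (by norm_num)).mul_const _)
    rw [zero_mul, add_zero] at h2
    exact le_of_tendsto_of_tendsto' h1 h2 (fun i => hbd2 j i b)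
  refine ⟨a, ⟨Q p, (hQ _ hp).1, fun r hr => ?_⟩, ?_⟩
  · obtain ⟨n, hn⟩ := hvs r hr
    exact ⟨(S n).2 + 1, fun b => (hn _).trans ((hPle2 n _).trans (hlimb n b))⟩
  · have h1 : Tendsto (fun n => p (1 - α n)) atTop (𝓝 (p (1 - a))) :=
      (hp.1.tendsto _).comp (ha.const_sub 1)
    have h2 : ∀ n, p (1 - α n) ≤ 3 / 8 - 1 / 4 * (1 / 2) ^ n := by
      intro n
      induction n with
      | zero =>
        rw [hα]
        refine (hz0 _).trans ?_
        norm_num
      | succ n ih =>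
        have e1 : 1 - α (n + 1) = (1 - α n) - (α (n + 1) - α n) := by abel
        rw [e1]
        have h3 := map_sub_le_add p (1 - α n) (α (n + 1) - α n)
        have h4 := (hPmono 0 (n + 1) (by omega) (α (n + 1) - α n)).trans (hSe n)
        rw [hP0] at h4
        have h5 : (1 / 2 : ℝ) ^ (n + 3) = (1 / 2) ^ n * (1 / 8) := by
          rw [pow_add]
          norm_num
        rw [h5] at h4
        rw [pow_succ]
        linarith
    have h3 : p (1 - a) ≤ 3 / 8 := by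
      refine le_of_tendsto h1 (Eventually.of_forall fun n => (h2 n).trans ?_)
      have : (0 : ℝ) < (1 / 2) ^ n := by positivity
      linarith
    linarith

end Pool.Agent.Helper45.SL
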